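import Mathlib

/-! An element of the Galois group of an irreducible polynomial of prime power degree. -/

set_option autoImplicit false

namespace Pool.Agent.V8H70.UT

open Polynomial

/-- Jordan's theorem -/
lemma exists_derangement (G X : Type*) [Group G] [Finite G] [MulAction G X] [Finite X]
    [MulAction.IsPretransitive G X] (h : 1 < Nat.card X) : ∃ g : G, ∀ x : X, g • x ≠ x := by
  classical
  by_contra hc
  push Not at hc
  have : Fintype G := Fintype.ofFinite _
  have : Fintype X := Fintype.ofFinite _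
  have hfix : ∀ g : G, 1 ≤ Fintype.card (MulAction.fixedBy X g) := by
    intro g
    obtain ⟨x, hx⟩ := hc g
    exact Fintype.card_pos_iff.2 ⟨⟨x, hx⟩⟩
  have hone : 1 < Fintype.card (MulAction.fixedBy X (1 : G)) := by
    have h1 : MulAction.fixedBy X (1 : G) = Set.univ := by
      ext x
      simp
    have h2 : Fintype.card (MulAction.fixedBy X (1 : G)) = Fintype.card X := by
      rw [← Set.toFinset_card]
      simp only [h1, Set.toFinset_univ, Finset.card_univ]
    rw [h2, ← Nat.card_eq_fintype_card]
    exact h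
  have hlt : ∑ _g : G, 1 < ∑ g : G, Fintype.card (MulAction.fixedBy X g) :=
    Finset.sum_lt_sum (fun g _ => hfix g) ⟨1, Finset.mem_univ _, hone⟩
  have horb : Fintype.card (MulAction.orbitRel.Quotient G X) ≤ 1 := by
    rw [Fintype.card_le_one_iff_subsingleton]
    exact (MulAction.pretransitive_iff_subsingleton_quotient _ _).1 inferInstance
  have hB := MulAction.sum_card_fixedBy_eq_card_orbits_mul_card_group G X
  rw [hB, Finset.sum_const, Finset.card_univ, smul_eq_mul, mul_one] at hlt
  have hle : Fintype.card (MulAction.orbitRel.Quotient G X) * Fintype.card G ≤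
      1 * Fintype.card G := Nat.mul_le_mul_right _ horb
  rw [one_mul] at hle
  exact absurd hlt (not_lt.2 hle)

/-- a transitive group of prime power degree has an element all of whose orbits have length
divisible by the prime -/
lemma exists_elt (G X : Type*) [Group G] [Finite G] [MulAction G X] [Finite X]
    [MulAction.IsPretransitive G X] (ℓ r : ℕ) (hℓ : ℓ.Prime) (hr : 0 < r)
    (h : Nat.card X = ℓ ^ r) : ∃ g : G, ∀ (x : X) (c : ℕ), g ^ c • x = x → ℓ ∣ c := by
  classical
  have hfact : Fact ℓ.Prime := ⟨hℓ⟩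
  have hX1 : 1 < Nat.card X := by
    rw [h]
    exact Nat.one_lt_pow hr.ne' hℓ.one_lt
  have hXne : Nonempty X := (Nat.card_pos_iff.1 (by omega)).1
  obtain ⟨P⟩ : Nonempty (Sylow ℓ G) := inferInstance
  have hPtr : MulAction.IsPretransitive P X := by
    obtain ⟨x⟩ := hXne
    have h1 : Nat.card X * Nat.card (MulAction.stabilizer G x) = Nat.card G := by
      have h2 := Subgroup.card_eq_card_quotient_mul_card_subgroup (MulAction.stabilizer G x)
      rw [h2]
      congr 1
      refine (Nat.card_congr ((MulAction.orbitEquivQuotientStabilizer G x).symm.trans ?_)).symm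
      exact (Equiv.setCongr (MulAction.orbit_eq_univ G x)).trans (Equiv.Set.univ X)
    have h2 : Nat.card (MulAction.orbit P x) * Nat.card (MulAction.stabilizer P x) = Nat.card P := by
      have h2 := Subgroup.card_eq_card_quotient_mul_card_subgroup (MulAction.stabilizer P x)
      rw [h2]
      congr 1
      exact Nat.card_congr (MulAction.orbitEquivQuotientStabilizer P x)
    have h3 : Nat.card (MulAction.stabilizer P x) ∣ Nat.card (MulAction.stabilizer G x) := by
      let ι : MulAction.stabilizer P x →* MulAction.stabilizer G x :=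
        { toFun := fun g => ⟨g.1.1, g.2⟩
          map_one' := rfl
          map_mul' := fun _ _ => rfl }
      have hι : Function.Injective ι := by
        intro a b hab
        apply Subtype.ext
        apply Subtype.ext
        exact congrArg (fun z => (z : MulAction.stabilizer G x).1) hab
      exact Subgroup.card_dvd_of_injective ι hι
    have hP : Nat.card P = ℓ ^ (Nat.card G).factorization ℓ := Sylow.card_eq_multiplicity P
    obtain ⟨s, -, hs⟩ := (Nat.dvd_prime_pow hℓ).1 (hP ▸ (Dvd.intro_left _ h2 :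
      Nat.card (MulAction.stabilizer P x) ∣ Nat.card P))
    have h4 : ℓ ^ (r + s) ∣ Nat.card G := by
      rw [← h1, pow_add, h]
      exact mul_dvd_mul_left _ (hs ▸ h3)
    have h5 : r + s ≤ (Nat.card G).factorization ℓ :=
      (hℓ.pow_dvd_iff_le_factorization Nat.card_pos.ne').1 h4
    have h6 : ℓ ^ r ≤ Nat.card (MulAction.orbit P x) := by
      have h7 : ℓ ^ (r + s) ≤ Nat.card (MulAction.orbit P x) * ℓ ^ s := by
        rw [← hs, h2, hP]
        exact Nat.pow_le_pow_right hℓ.pos h5
      rw [pow_add] at h7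
      exact Nat.le_of_mul_le_mul_right h7 (pow_pos hℓ.pos s)
    have h8 : MulAction.orbit P x = Set.univ := by
      apply Set.eq_of_subset_of_ncard_le (Set.subset_univ _)
      rw [Set.ncard_univ, h]
      exact h6
    refine ⟨fun y z => ?_⟩
    obtain ⟨a, ha⟩ : y ∈ MulAction.orbit P x := h8 ▸ Set.mem_univ y
    obtain ⟨b, hb⟩ : z ∈ MulAction.orbit P x := h8 ▸ Set.mem_univ z
    refine ⟨b * a⁻¹, ?_⟩
    simp only at ha hb
    rw [← ha, ← hb, mul_smul, inv_smul_smul]
  obtain ⟨g, hg⟩ := exists_derangement P X hX1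
  refine ⟨g.1, fun x c hc => ?_⟩
  by_contra hℓc
  obtain ⟨k, hk⟩ : ∃ k, orderOf g = ℓ ^ k := by
    obtain ⟨k, hk⟩ := (IsPGroup.iff_orderOf.1 P.2) g
    exact ⟨k, hk⟩
  have hcop : Nat.Coprime (orderOf g) c := by
    rw [hk]
    exact Nat.Coprime.pow_left _ ((Nat.Prime.coprime_iff_not_dvd hℓ).2 hℓc)
  obtain ⟨d, hd⟩ := exists_pow_eq_self_of_coprime hcop.symm
  apply hg x
  have h9 : (g ^ c) • x = x := hc
  have h10 : ∀ d : ℕ, ((g ^ c) ^ d) • x = x := by
    intro d
    induction d with
    | zero => simp
    | succ d ih => rw [pow_succ, mul_smul, h9, ih]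
  have h11 := h10 d
  rwa [hd] at h11

/-- an element of the Galois group all of whose orbits on the roots have length divisible by `ℓ` -/
theorem exists_sigma {K : Type} [Field K] [CharZero K] (f : K[X]) (hf : Irreducible f) (ℓ r : ℕ)
    (hℓ : ℓ.Prime) (hr : 0 < r) (h : f.natDegree = ℓ ^ r) :
    ∃ σ : AlgebraicClosure K ≃ₐ[K] AlgebraicClosure K, ∀ (θ : AlgebraicClosure K) (c : ℕ),
      aeval θ f = 0 → (σ ^ c) θ = θ → ℓ ∣ c := by
  classical
  have hsp : Fact ((f.map (algebraMap K (AlgebraicClosure K))).Splits) := ⟨IsAlgClosed.splits _⟩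
  have htr : MulAction.IsPretransitive f.Gal (f.rootSet (AlgebraicClosure K)) :=
    Polynomial.Gal.galAction_isPretransitive f (AlgebraicClosure K) hf
  have hcard : Nat.card (f.rootSet (AlgebraicClosure K)) = ℓ ^ r := by
    rw [Nat.card_eq_fintype_card, card_rootSet_eq_natDegree hf.separable hsp.out, h]
  obtain ⟨g, hg⟩ := exists_elt f.Gal (f.rootSet (AlgebraicClosure K)) ℓ r hℓ hr hcard
  obtain ⟨σ, hσ⟩ := Polynomial.Gal.restrict_surjective f (AlgebraicClosure K) g
  refine ⟨σ, fun θ c hθ hc => ?_⟩
  have hmem : θ ∈ f.rootSet (AlgebraicClosure K) := by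
    rw [mem_rootSet]
    exact ⟨hf.ne_zero, hθ⟩
  refine hg ⟨θ, hmem⟩ c ?_
  apply Subtype.ext
  rw [← hσ, ← map_pow, Polynomial.Gal.restrict_smul]
  exact hc

end Pool.Agent.V8H70.UT
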