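import Pool.Agent.W723.SecC.D1d

/-! Primes with a given Frobenius element and the roots of a polynomial in the extensions of the
residue field. -/

set_option autoImplicit false

namespace Pool.Agent.V8H70.UT

open Polynomial NumberField IsDedekindDomain
open Pool.Agent.W401.Cheb Pool.Agent.W723.SecC

universe u

lemma exists_L_aux (Ω : Type) [Field Ω] [Algebra ℚ Ω] [IsAlgClosure ℚ Ω] [IsAlgClosed Ω]
    [IsGalois ℚ Ω]
    (K : Type u) [Field K] [NumberField K] (f : K[X]) (hf : f ≠ 0)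
    (σ : AlgebraicClosure K ≃ₐ[K] AlgebraicClosure K) :
    ∃ (L : Type) (_ : Field L) (_ : NumberField L) (_ : IsGalois ℚ L) (i : K →+* L)
      (τ : L ≃ₐ[ℚ] L), (∀ x, τ (i x) = i x) ∧
        (∀ θ, f.eval₂ i θ = 0 → ∀ n : ℕ, (τ ^ n) θ = θ →
          ∃ θ' : AlgebraicClosure K, aeval θ' f = 0 ∧ (σ ^ n) θ' = θ') ∧
        (f.map i).Splits := by
  classical
  have : Algebra.IsAlgebraic ℚ (AlgebraicClosure K) := Algebra.IsAlgebraic.trans ℚ K _
  have : IsAlgClosure ℚ (AlgebraicClosure K) := ⟨inferInstance, inferInstance⟩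
  let e : AlgebraicClosure K ≃ₐ[ℚ] Ω := IsAlgClosure.equiv ℚ (AlgebraicClosure K) Ω
  let j : K →ₐ[ℚ] Ω := (e : AlgebraicClosure K →ₐ[ℚ] Ω).comp
    ((Algebra.ofId K (AlgebraicClosure K)).restrictScalars ℚ)
  have hj : ∀ x, j x = e (algebraMap K (AlgebraicClosure K) x) := fun x => rfl
  let τ₀ : Ω ≃ₐ[ℚ] Ω := e.symm.trans ((σ.restrictScalars ℚ).trans e)
  have hτ₀ : ∀ x, τ₀ x = e (σ (e.symm x)) := fun x => rfl
  have hτ₀n : ∀ (n : ℕ) x, (τ₀ ^ n) x = e ((σ ^ n) (e.symm x)) := by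
    intro n
    induction n with
    | zero => intro x; simp
    | succ n ih =>
      intro x
      rw [pow_succ, AlgEquiv.mul_apply, ih, hτ₀, pow_succ, AlgEquiv.mul_apply]
      simp
  let b := Module.finBasis ℚ K
  let s : Set Ω := (Set.range fun k => j (b k)) ∪ {θ : Ω | (f.map (j : K →+* Ω)).IsRoot θ}
  have hs : s.Finite := by
    refine (Set.finite_range _).union ?_
    have h0 : f.map (j : K →+* Ω) ≠ 0 := by
      rwa [Ne, Polynomial.map_eq_zero]
    exact Polynomial.finite_setOfPred_isRoot h0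
  have : Finite s := hs
  let LL := FiniteGaloisIntermediateField.adjoin ℚ s
  have hsub : s ⊆ LL.toIntermediateField := FiniteGaloisIntermediateField.subset_adjoin ℚ s
  let L := LL.toIntermediateField
  have hjL : ∀ x, j x ∈ L := by
    intro x
    rw [← b.sum_repr x, map_sum]
    refine sum_mem fun k _ => ?_
    rw [map_smul]
    exact L.smul_mem (hsub (Or.inl ⟨k, rfl⟩))
  have hEq : (DivisionRing.toRatAlgebra : Algebra ℚ L) = L.algebra' := Subsingleton.elim _ _
  have hga : IsGalois ℚ L := by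
    have h := LL.isGalois
    rw [hEq]
    exact h
  have hn : NumberField L :=
    { to_charZero := inferInstance
      to_finiteDimensional := by
        have h := LL.finiteDimensional
        rw [hEq]
        exact h }
  have hnorm : @Normal ℚ L _ _ L.algebra' := by
    have h := LL.isGalois
    exact h.to_normal
  let i : K →+* L := (j : K →+* Ω).codRestrict L hjL
  have hi : ∀ x, (i x : Ω) = j x := fun x => rfl
  have hic : (algebraMap L Ω).comp i = (j : K →+* Ω) := by
    ext x; rfl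
  have hτex : ∃ τ' : L ≃+* L, ∀ x : L, ((τ' x : L) : Ω) = τ₀ x := by
    let _ : Algebra ℚ L := L.algebra'
    have _ : Normal ℚ L := hnorm
    exact ⟨(τ₀.restrictNormal L).toRingEquiv, fun x => τ₀.restrictNormal_commutes L x⟩
  obtain ⟨τ', hτ'⟩ := hτex
  let τ : L ≃ₐ[ℚ] L := AlgEquiv.ofRingEquiv (f := τ') (fun r => by
    rw [eq_ratCast, map_ratCast])
  have hτ : ∀ x : L, (τ x : Ω) = τ₀ x := hτ'
  have hτn : ∀ (n : ℕ) (x : L), (((τ ^ n) x : L) : Ω) = (τ₀ ^ n) x := by
    intro n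
    induction n with
    | zero => intro x; simp
    | succ n ih =>
      intro x
      rw [pow_succ, AlgEquiv.mul_apply, ih, hτ, pow_succ, AlgEquiv.mul_apply]
  have hmap : f.map (j : K →+* Ω) = (f.map i).map (algebraMap L Ω) := by
    rw [Polynomial.map_map, hic]
  refine ⟨L, inferInstance, inferInstance, inferInstance, i, τ, ?_, ?_, ?_⟩
  · intro x
    apply Subtype.ext
    rw [hτ, hi, hτ₀, hj]
    simp
  · intro θ hθ n h
    have h1 : aeval (e.symm (θ : Ω)) f = 0 := by
      apply e.injective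
      rw [map_zero]
      have h2 : e (aeval (e.symm (θ : Ω)) f) = f.eval₂ (j : K →+* Ω) (θ : Ω) := by
        have h3 := Polynomial.hom_eval₂ f (algebraMap K (AlgebraicClosure K))
          (e : AlgebraicClosure K →+* Ω) (e.symm (θ : Ω))
        rw [aeval_def]
        refine h3.trans ?_
        have h4 : (e : AlgebraicClosure K →+* Ω) (e.symm (θ : Ω)) = (θ : Ω) := e.apply_symm_apply _
        rw [h4]
        rfl
      rw [h2, ← hic]
      have h5 := Polynomial.hom_eval₂ f i (algebraMap L Ω) θ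
      rw [hθ, map_zero] at h5
      exact h5.symm
    refine ⟨_, h1, ?_⟩
    apply e.injective
    have h3 := hτn n θ
    rw [h, hτ₀n] at h3
    rw [← h3]
    simp
  · have h6 : (f.map (j : K →+* Ω)).Splits := IsAlgClosed.splits _
    rw [hmap] at h6
    refine Splits.of_splits_map (algebraMap L Ω) h6 ?_
    intro θ hθ
    rw [← hmap] at hθ
    have h7 : (f.map (j : K →+* Ω)).IsRoot θ := Polynomial.isRoot_of_mem_roots hθ
    exact ⟨⟨θ, hsub (Or.inr h7)⟩, rfl⟩

lemma exists_L (K : Type u) [Field K] [NumberField K] (f : K[X]) (hf : f ≠ 0)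
    (σ : AlgebraicClosure K ≃ₐ[K] AlgebraicClosure K) :
    ∃ (L : Type) (_ : Field L) (_ : NumberField L) (_ : IsGalois ℚ L) (i : K →+* L)
      (τ : L ≃ₐ[ℚ] L), (∀ x, τ (i x) = i x) ∧
        (∀ θ, f.eval₂ i θ = 0 → ∀ n : ℕ, (τ ^ n) θ = θ →
          ∃ θ' : AlgebraicClosure K, aeval θ' f = 0 ∧ (σ ^ n) θ' = θ') ∧
        (f.map i).Splits :=
  @exists_L_aux (AlgebraicClosure ℚ) _ (AlgebraicClosure.instAlgebra ℚ) inferInstance inferInstance
    inferInstance K _ _ f hf σ

/-- a homomorphism to a finite field whose kernel has index `p` can be compared with any other one to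
the algebraic closure of the prime field -/
lemma embed {R : Type u} [CommRing R] (p : ℕ) [Fact p.Prime] (I : Ideal R)
    (hI : Nat.card (R ⧸ I) = p) (ψ : R →+* AlgebraicClosure (ZMod p)) (hψ : ∀ x ∈ I, ψ x = 0)
    (κ : Type) [Field κ] [Finite κ] (ρ : R →+* κ) (hρ : ∀ x ∈ I, ρ x = 0) :
    ∃ e : κ →+* AlgebraicClosure (ZMod p), ∀ x, e (ρ x) = ψ x := by
  classical
  have hp := (Fact.out : p.Prime)
  have hpI : (p : R) ∈ I := by
    have h1 : (p : R ⧸ I) = 0 := by
      have hfin : Finite (R ⧸ I) := Nat.finite_of_card_ne_zero (by rw [hI]; exact hp.ne_zero)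
      have h2 : (Nat.card (R ⧸ I)) • (1 : R ⧸ I) = 0 := card_nsmul_eq_zero'
      rw [hI, nsmul_eq_mul, mul_one] at h2
      exact h2
    rw [← Ideal.Quotient.eq_zero_iff_mem]
    simpa using h1
  have hpκ : ((p : ℕ) : κ) = 0 := by
    rw [← map_natCast ρ]
    exact hρ _ hpI
  have hch : CharP κ p := (CharP.charP_iff_prime_eq_zero hp).2 hpκ
  let _ : Algebra (ZMod p) κ := ZMod.algebra κ p
  have hfin : Module.Finite (ZMod p) κ := Module.Finite.of_finite
  let e : κ →ₐ[ZMod p] AlgebraicClosure (ZMod p) := IsAlgClosed.lift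
  refine ⟨e, fun x => ?_⟩
  -- `x` is congruent to a natural number
  have hfinR : Finite (R ⧸ I) := Nat.finite_of_card_ne_zero (by rw [hI]; exact hp.ne_zero)
  have hchar : CharP (R ⧸ I) p := by
    have hnt : Nontrivial (R ⧸ I) := by
      rw [← Finite.one_lt_card_iff_nontrivial, hI]
      exact hp.one_lt
    have h0 : ((p : ℕ) : R ⧸ I) = 0 := by
      have := Ideal.Quotient.eq_zero_iff_mem.2 hpI
      simpa using this
    exact (CharP.charP_iff_prime_eq_zero hp).2 h0
  have hbij : Function.Bijective (ZMod.castHom (dvd_refl p) (R ⧸ I)) := by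
    have hinj := ZMod.castHom_injective (R ⧸ I)
    refine (Nat.bijective_iff_injective_and_card _).2 ⟨hinj, ?_⟩
    rw [hI, Nat.card_zmod]
  obtain ⟨n, hn⟩ := hbij.2 (Ideal.Quotient.mk I x)
  have hn' : Ideal.Quotient.mk I x = Ideal.Quotient.mk I ((n.val : ℕ) : R) := by
    rw [← hn, map_natCast]
    rw [ZMod.castHom_apply, ← ZMod.natCast_val]
  rw [Ideal.Quotient.eq] at hn'
  have h1 := hψ _ hn'
  have h2 := hρ _ hn'
  rw [map_sub, sub_eq_zero, map_natCast] at h1 h2
  rw [h1, h2, map_natCast]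

/-- the primes without roots in extensions of the residue field -/
theorem primes (K : Type u) [Field K] [NumberField K] (g : (𝓞 K)[X]) (c : 𝓞 K) (hc : c ≠ 0)
    (hsep : (g.map (algebraMap (𝓞 K) K)).Separable)
    (σ : AlgebraicClosure K ≃ₐ[K] AlgebraicClosure K) (ε : ℝ) (hε : 0 < ε) :
    ∃ T : Finset (HeightOneSpectrum (𝓞 K)),
      (∀ v ∈ T, c ∉ v.asIdeal ∧ g.leadingCoeff ∉ v.asIdeal ∧
        (g.map (Ideal.Quotient.mk v.asIdeal)).Separable ∧
        ∀ (κ : Type) [Field κ] [Finite κ] (ρ : 𝓞 K →+* κ), (∀ x ∈ v.asIdeal, ρ x = 0) →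
          ∀ n : ℕ, (∀ x : κ, x ^ (Ideal.absNorm v.asIdeal) ^ n = x) →
          ∀ r : κ, g.eval₂ ρ r = 0 →
          ∃ θ : AlgebraicClosure K, aeval θ (g.map (algebraMap (𝓞 K) K)) = 0 ∧ (σ ^ n) θ = θ) ∧
      ∏ v ∈ T, (1 - (1 / (Ideal.absNorm v.asIdeal : ℝ) - 1 / (Ideal.absNorm v.asIdeal : ℝ) ^ 2)) < ε := by
  classical
  obtain ⟨L, _, _, _, i, τ, hτi, hτθ, hspl⟩ :=
    exists_L K (g.map (algebraMap (𝓞 K) K)) hsep.ne_zero σ
  let iO : 𝓞 K →+* 𝓞 L := RingOfIntegers.mapRingHom i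
  have hiO : ∀ x, ((iO x : 𝓞 L) : L) = i x := fun x => rfl
  have hiinj : Function.Injective iO := by
    intro x y hxy
    have h1 : (iO x : L) = iO y := by rw [hxy]
    rw [hiO, hiO] at h1
    exact RingOfIntegers.coe_injective (i.injective h1)
  have hsmul : ∀ x : 𝓞 L, ((τ • x : 𝓞 L) : L) = τ x := fun x => rfl
  have hsmuln : ∀ (n : ℕ) (x : 𝓞 L), ((τ ^ n • x : 𝓞 L) : L) = (τ ^ n) x := fun n x => rfl
  have hτO : ∀ x, τ • (iO x) = iO x := by
    intro x
    apply RingOfIntegers.ext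
    rw [hsmul, hiO, hτi]
  have hτin : ∀ (n : ℕ) (x : K), (τ ^ n) (i x) = i x := by
    intro n x
    induction n with
    | zero => simp
    | succ n ih => rw [pow_succ, AlgEquiv.mul_apply, hτi, ih]
  obtain ⟨u, w, D, hD, huw⟩ := sep_int K g hsep
  have hg0 : g ≠ 0 := by
    rintro rfl
    exact hsep.ne_zero (Polynomial.map_zero _)
  set lc := g.leadingCoeff with hlc
  have hlc0 : lc ≠ 0 := leadingCoeff_ne_zero.mpr hg0
  set gL : L[X] := (g.map (algebraMap (𝓞 K) K)).map i with hgL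
  have hgL0 : gL ≠ 0 := by
    rw [hgL, Ne, Polynomial.map_eq_zero]
    exact hsep.ne_zero
  have hgLlc : gL.leadingCoeff = i (lc : K) := by
    rw [hgL, leadingCoeff_map, leadingCoeff_map_of_injective
      (FaithfulSMul.algebraMap_injective (𝓞 K) K)]
  have hroot : ∀ θ ∈ gL.roots, gL.eval θ = 0 := fun θ hθ => (mem_roots hgL0).mp hθ
  have hint : ∀ θ ∈ gL.roots, IsIntegral ℤ (i (lc : K) * θ) := by
    intro θ hθ
    have h1 : (i.comp (algebraMap (𝓞 K) K)).IsIntegralElem
        ((i.comp (algebraMap (𝓞 K) K)) lc * θ) := by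
      refine (i.comp (algebraMap (𝓞 K) K)).isIntegralElem_leadingCoeff_mul g θ ?_
      have h2 := hroot θ hθ
      rw [hgL, Polynomial.map_map, eval_map] at h2
      exact h2
    let _ : Algebra (𝓞 K) L := (i.comp (algebraMap (𝓞 K) K)).toAlgebra
    exact isIntegral_trans (R := ℤ) (A := 𝓞 K) _ h1
  have hηex : ∀ θ : L, ∃ y : 𝓞 L, θ ∈ gL.roots → ((y : 𝓞 L) : L) = i (lc : K) * θ := by
    intro θ
    by_cases hθ : θ ∈ gL.roots
    · exact ⟨⟨_, hint θ hθ⟩, fun _ => rfl⟩
    · exact ⟨0, fun h => absurd h hθ⟩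
  choose η hη using hηex
  -- the differences, when they are not zero
  have hN : 0 < orderOf τ := orderOf_pos τ
  let δ : L → ℕ → 𝓞 L := fun θ n => if τ ^ n • (η θ) - η θ = 0 then 1 else τ ^ n • (η θ) - η θ
  have hδ : ∀ θ n, δ θ n ≠ 0 := by
    intro θ n
    simp only [δ]
    split_ifs with h
    · exact one_ne_zero
    · exact h
  have hE1 : iO (c * 2 * lc * D) ≠ 0 := by
    rw [Ne, map_eq_zero_iff iO hiinj]
    exact mul_ne_zero (mul_ne_zero (mul_ne_zero hc two_ne_zero) hlc0) hD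
  obtain ⟨m1, hm1, hm1'⟩ := nz L _ hE1
  choose mθ hmθ hmθ' using fun x : {θ // θ ∈ gL.roots.toFinset} × Fin (orderOf τ) =>
    nz L _ (hδ x.1.1 x.2.1)
  set m : ℕ := m1 * ∏ x, mθ x with hm
  have hmpos : 0 < m := Nat.mul_pos hm1 (Finset.prod_pos fun x _ => hmθ x)
  obtain ⟨δ', C', hδpos, hcount⟩ := count L τ m hmpos
  refine many (frobSet L τ m) (fun p hp => hp.1) (diverge _ δ' C' hδpos hcount)
    (fun v : HeightOneSpectrum (𝓞 K) => Ideal.absNorm v.asIdeal) _ ?_ ε hε
  intro p hp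
  obtain ⟨hpp, hpm, hxp⟩ := hp
  have : Fact p.Prime := ⟨hpp⟩
  have hex : ∃ φ : 𝓞 L →+* AlgebraicClosure (ZMod p), HasFrob p φ τ := by
    unfold xp at hxp
    rw [dif_pos hpp] at hxp
    by_contra h
    push Not at h
    apply hxp
    rw [Nat.card_eq_zero]
    left
    exact ⟨fun x => h x.1 x.2⟩
  obtain ⟨φ, hφ⟩ := hex
  have hcast : ∀ n : ℕ, n ∣ m → (n : AlgebraicClosure (ZMod p)) ≠ 0 := by
    intro n hn h
    rw [CharP.cast_eq_zero_iff (AlgebraicClosure (ZMod p)) p] at h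
    exact hpm (h.trans hn)
  have hφE1 : φ (iO (c * 2 * lc * D)) ≠ 0 := hm1' _ φ (hcast m1 (Dvd.intro _ rfl))
  have hφθ : ∀ θ ∈ gL.roots, ∀ n < orderOf τ, φ (δ θ n) ≠ 0 := by
    intro θ hθ n hn
    have hθ' : θ ∈ gL.roots.toFinset := Multiset.mem_toFinset.mpr hθ
    refine hmθ' (⟨θ, hθ'⟩, ⟨n, hn⟩) _ φ (hcast _ ?_)
    exact (Finset.dvd_prod_of_mem mθ (Finset.mem_univ _)).trans (Dvd.intro_left _ rfl)
  let ψ : 𝓞 K →+* AlgebraicClosure (ZMod p) := φ.comp iO
  have hψ : ∀ x, ψ x ^ p = ψ x := by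
    intro x
    have h1 := hφ (iO x)
    rw [hτO] at h1
    exact h1.symm
  have hψn : ∀ (n : ℕ) x, ψ x ^ p ^ n = ψ x := by
    intro n x
    induction n with
    | zero => simp
    | succ n ih => rw [pow_succ, pow_mul, ih, hψ]
  have hφn : ∀ (n : ℕ) x, φ (τ ^ n • x) = φ x ^ p ^ n := by
    intro n
    induction n with
    | zero => intro x; simp
    | succ n ih =>
      intro x
      rw [pow_succ, mul_smul, ih, hφ, ← pow_mul, pow_succ, mul_comm]
  have hnorm := absNorm_ker K p (AlgebraicClosure (ZMod p)) ψ hψ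
  have hmem : ∀ x, x ∈ RingHom.ker ψ ↔ φ (iO x) = 0 := fun x => RingHom.mem_ker
  have hprime : (RingHom.ker ψ).IsPrime := RingHom.ker_isPrime ψ
  have hbot : RingHom.ker ψ ≠ ⊥ := by
    intro h
    rw [h, Ideal.absNorm_bot] at hnorm
    exact hpp.ne_zero hnorm.symm
  have hmax : (RingHom.ker ψ).IsMaximal := hprime.isMaximal hbot
  have hφ4 : φ (iO c) ≠ 0 ∧ φ (iO 2) ≠ 0 ∧ φ (iO lc) ≠ 0 ∧ φ (iO D) ≠ 0 := by
    rw [map_mul, map_mul, map_mul, map_mul, map_mul, map_mul] at hφE1
    refine ⟨?_, ?_, ?_, ?_⟩ <;> intro h <;> apply hφE1 <;> rw [h] <;> ring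
  obtain ⟨h4c, h42, h4lc, h4D⟩ := hφ4
  refine ⟨⟨RingHom.ker ψ, hprime, hbot⟩, ⟨?_, ?_, ?_, ?_⟩, hnorm⟩
  · exact fun h => h4c ((hmem _).mp h)
  · exact fun h => h4lc ((hmem _).mp h)
  · obtain ⟨y, hy⟩ : ∃ y : 𝓞 K, (Ideal.Quotient.mk (RingHom.ker ψ)) (y * D) = 1 := by
      obtain ⟨y, z, hz, hy⟩ := hmax.exists_inv (fun h => h4D ((hmem _).mp h))
      refine ⟨y, ?_⟩
      have h6 := congrArg (Ideal.Quotient.mk (RingHom.ker ψ)) hy
      rw [map_add, Ideal.Quotient.eq_zero_iff_mem.mpr hz, add_zero, map_one] at h6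
      exact h6
    refine ⟨C (Ideal.Quotient.mk _ y) * u.map (Ideal.Quotient.mk _),
      C (Ideal.Quotient.mk _ y) * w.map (Ideal.Quotient.mk _), ?_⟩
    have h5 := congrArg (Polynomial.map (Ideal.Quotient.mk (RingHom.ker ψ))) huw
    rw [Polynomial.map_add, Polynomial.map_mul, Polynomial.map_mul, map_C] at h5
    rw [derivative_map, mul_assoc, mul_assoc, ← mul_add, h5, ← C_mul, ← map_mul, hy, C_1]
  · intro κ _ _ ρ hρ n hn r hr
    have hcard : Nat.card (𝓞 K ⧸ RingHom.ker ψ) = p := by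
      have h := hnorm
      rw [Ideal.absNorm_apply, Submodule.cardQuot_apply] at h
      exact h
    obtain ⟨e, he⟩ := embed p (RingHom.ker ψ) hcard ψ (fun x hx => RingHom.mem_ker.1 hx) κ ρ hρ
    have hn' : ∀ x : κ, x ^ p ^ n = x := by
      intro x
      have h1 := hn x
      change x ^ (Ideal.absNorm (RingHom.ker ψ)) ^ n = x at h1
      rwa [hnorm] at h1
    -- the image of the root
    have hr1 : g.eval₂ ψ (e r) = 0 := by
      have h1 := Polynomial.hom_eval₂ g ρ e r
      rw [hr, map_zero] at h1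
      have h2 : e.comp ρ = ψ := RingHom.ext he
      rw [h2] at h1
      exact h1.symm
    have hr2 : (e r) ^ p ^ n = e r := by rw [← map_pow, hn']
    have hfac : gL = C gL.leadingCoeff * (gL.roots.map fun θ => X - C θ).prod :=
      hspl.eq_prod_roots
    -- the factorisation over the integers
    have hpoly : C (iO lc ^ (Multiset.card gL.roots)) * g.map iO =
        C (iO lc) * (gL.roots.map fun θ => C (iO lc) * X - C (η θ)).prod := by
      apply Polynomial.map_injective (algebraMap (𝓞 L) L) (FaithfulSMul.algebraMap_injective _ _)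
      have h8 : (algebraMap (𝓞 L) L) (iO lc) = i (lc : K) := rfl
      have h9 : (g.map iO).map (algebraMap (𝓞 L) L) = gL := by
        rw [hgL, Polynomial.map_map, Polynomial.map_map]
        rfl
      rw [Polynomial.map_mul, Polynomial.map_mul, map_C, map_C, h9, map_pow, h8,
        Polynomial.map_multiset_prod, Multiset.map_map]
      have h10 : gL.roots.map ((Polynomial.map (algebraMap (𝓞 L) L)) ∘
          fun θ => C (iO lc) * X - C (η θ)) = gL.roots.map (fun θ => C (i (lc : K)) * (X - C θ)) := by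
        refine Multiset.map_congr rfl fun θ hθ => ?_
        simp only [Function.comp_apply, Polynomial.map_sub, Polynomial.map_mul, map_C, map_X, h8]
        have h11 : (algebraMap (𝓞 L) L) (η θ) = i (lc : K) * θ := hη θ hθ
        rw [h11, C_mul]
        ring
      rw [h10, Multiset.prod_map_mul, Multiset.map_const', Multiset.prod_replicate]
      have hfac' : gL = C (i (lc : K)) * (gL.roots.map fun θ => X - C θ).prod := by
        conv_lhs => rw [hfac]
        rw [hgLlc]
      rw [C_pow]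
      refine (congrArg (fun q => C (i (lc : K)) ^ (Multiset.card gL.roots) * q) hfac').trans ?_
      ring
    have h3 := congrArg (Polynomial.eval₂ φ (e r)) hpoly
    rw [eval₂_mul, eval₂_mul, eval₂_C, eval₂_C, eval₂_map] at h3
    have h3' : g.eval₂ (φ.comp iO) (e r) = 0 := hr1
    rw [h3', mul_zero] at h3
    have h4 : (gL.roots.map (fun θ => C (iO lc) * X - C (η θ))).prod.eval₂ φ (e r) = 0 := by
      rcases mul_eq_zero.mp h3.symm with h | h
      · exact absurd h h4lc
      · exact h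
    rw [← coe_eval₂RingHom, map_multiset_prod, Multiset.prod_eq_zero_iff, Multiset.map_map,
      Multiset.mem_map] at h4
    obtain ⟨θ, hθ, h5⟩ := h4
    have h6 : ψ lc * e r = φ (η θ) := by
      have h7 : (C (iO lc) * X - C (η θ)).eval₂ φ (e r) = 0 := h5
      rw [eval₂_sub, eval₂_mul, eval₂_C, eval₂_C, eval₂_X, sub_eq_zero] at h7
      exact h7
    have h7 : φ (τ ^ n • η θ) = φ (η θ) := by
      rw [hφn, ← h6, mul_pow, hψn, hr2]
    -- reduce the exponent modulo the order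
    have h8 : τ ^ n = τ ^ (n % orderOf τ) := (pow_mod_orderOf τ n).symm
    have h9 : n % orderOf τ < orderOf τ := Nat.mod_lt _ hN
    have h10 : τ ^ n • (η θ) - η θ = 0 := by
      by_contra hne
      have h11 := hφθ θ hθ _ h9
      simp only [δ] at h11
      rw [← h8, if_neg hne, map_sub, h7, sub_self] at h11
      exact h11 rfl
    have h12 : (τ ^ n) θ = θ := by
      have h13 : ((τ ^ n • (η θ) : 𝓞 L) : L) = ((η θ : 𝓞 L) : L) := by
        rw [sub_eq_zero.1 h10]
      rw [hsmuln, hη θ hθ, map_mul, hτin] at h13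
      refine mul_left_cancel₀ ?_ h13
      rw [Ne, map_eq_zero]
      intro h
      exact hlc0 ((map_eq_zero_iff (algebraMap (𝓞 K) K)
        (FaithfulSMul.algebraMap_injective (𝓞 K) K)).1 h)
    have h14 := hroot θ hθ
    rw [hgL, eval_map] at h14
    exact hτθ θ h14 n h12

end Pool.Agent.V8H70.UT
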