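import Pool.Agent.V8H70.UT.Main
import Pool.Agent.W417.SecC.D2

/-! Density zero, and the extensions with a good place. -/

set_option autoImplicit false
set_option linter.all false

namespace Pool.Agent.V8H70.UT

open Polynomial NumberField IsDedekindDomain FF Ideal
open Pool.Agent.Y157.PS

/-- density zero -/
def DZ {K : Type} [Field K] (E : Set (𝓞 K)) : Prop :=
  ∀ ε : ℝ, 0 < ε → ∃ I : Ideal (𝓞 K), I ≠ ⊥ ∧
    (Set.ncard ((Ideal.Quotient.mk I) '' E) : ℝ) ≤ ε * Nat.card (𝓞 K ⧸ I)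

lemma card_mono {K : Type} [Field K] [NumberField K] (I J : Ideal (𝓞 K)) (hIJ : I ≤ J)
    (hI : I ≠ ⊥) (E : Set (𝓞 K)) (δ : ℝ)
    (h : (Set.ncard ((Ideal.Quotient.mk J) '' E) : ℝ) ≤ δ * Nat.card (𝓞 K ⧸ J)) :
    (Set.ncard ((Ideal.Quotient.mk I) '' E) : ℝ) ≤ δ * Nat.card (𝓞 K ⧸ I) := by
  classical
  have hJ : J ≠ ⊥ := fun hJ => hI (le_bot_iff.1 (hJ ▸ hIJ))
  have hfI : Finite (𝓞 K ⧸ I) := Ideal.finiteQuotientOfFreeOfNeBot _ hI
  have hfJ : Finite (𝓞 K ⧸ J) := Ideal.finiteQuotientOfFreeOfNeBot _ hJ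
  let π : (𝓞 K ⧸ I) →+* (𝓞 K ⧸ J) := Ideal.Quotient.factor hIJ
  have hπ : Function.Surjective π := Ideal.Quotient.factor_surjective hIJ
  have hcard : Nat.card (𝓞 K ⧸ I) = Nat.card (𝓞 K ⧸ J) *
      Nat.card (π : (𝓞 K ⧸ I) →+ (𝓞 K ⧸ J)).ker := by
    rw [AddSubgroup.card_eq_card_quotient_mul_card_addSubgroup
      (π : (𝓞 K ⧸ I) →+ (𝓞 K ⧸ J)).ker]
    congr 1
    exact Nat.card_congr (QuotientAddGroup.quotientKerEquivOfSurjective
      (π : (𝓞 K ⧸ I) →+ (𝓞 K ⧸ J)) hπ).toEquiv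
  set k := Nat.card (π : (𝓞 K ⧸ I) →+ (𝓞 K ⧸ J)).ker with hk
  let _ : Fintype (𝓞 K ⧸ I) := Fintype.ofFinite _
  let _ : Fintype (𝓞 K ⧸ J) := Fintype.ofFinite _
  let s : Finset (𝓞 K ⧸ I) := ((Ideal.Quotient.mk I) '' E).toFinset
  have hs : s.image π = ((Ideal.Quotient.mk J) '' E).toFinset := by
    ext y
    simp only [s, Finset.mem_image, Set.mem_toFinset, Set.mem_image]
    constructor
    · rintro ⟨z, ⟨x, hx, rfl⟩, rfl⟩
      exact ⟨x, hx, rfl⟩
    · rintro ⟨x, hx, rfl⟩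
      exact ⟨_, ⟨x, hx, rfl⟩, rfl⟩
  have h1 : s.card ≤ k * (s.image π).card := by
    refine Finset.card_le_mul_card_image s k ?_
    intro y hy
    obtain ⟨x0, hx0⟩ := hπ y
    have h2 : (s.filter fun x => π x = y).card ≤ Nat.card (π : (𝓞 K ⧸ I) →+ (𝓞 K ⧸ J)).ker := by
      have h5 : Nat.card {x // x ∈ s.filter fun x => π x = y} =
          (s.filter fun x => π x = y).card := by
        rw [Nat.card_eq_fintype_card, Fintype.card_coe]
      rw [← h5]
      refine Nat.card_le_card_of_injective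
        (fun x => (⟨x.1 - x0, ?_⟩ : (π : (𝓞 K ⧸ I) →+ (𝓞 K ⧸ J)).ker)) ?_
      · rw [AddMonoidHom.mem_ker]
        have h6 := (Finset.mem_filter.1 x.2).2
        change π (x.1 - x0) = 0
        rw [map_sub, h6, hx0, sub_self]
      · intro x x' hxx'
        apply Subtype.ext
        have := congrArg Subtype.val hxx'
        exact sub_left_injective this
    exact h2
  have h3 : Set.ncard ((Ideal.Quotient.mk I) '' E) ≤ k * Set.ncard ((Ideal.Quotient.mk J) '' E) := by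
    rw [Set.ncard_eq_toFinset_card', Set.ncard_eq_toFinset_card', ← hs]
    exact h1
  have h4 : (Set.ncard ((Ideal.Quotient.mk I) '' E) : ℝ) ≤
      k * Set.ncard ((Ideal.Quotient.mk J) '' E) := by
    exact_mod_cast h3
  calc (Set.ncard ((Ideal.Quotient.mk I) '' E) : ℝ) ≤
      k * Set.ncard ((Ideal.Quotient.mk J) '' E) := h4
    _ ≤ k * (δ * Nat.card (𝓞 K ⧸ J)) := mul_le_mul_of_nonneg_left h (Nat.cast_nonneg _)
    _ = δ * Nat.card (𝓞 K ⧸ I) := by
      rw [hcard]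
      push_cast
      ring

lemma DZ.empty {K : Type} [Field K] [NumberField K] : DZ (∅ : Set (𝓞 K)) := by
  intro ε hε
  refine ⟨⊤, top_ne_bot, ?_⟩
  rw [Set.image_empty, Set.ncard_empty]
  push_cast
  exact mul_nonneg hε.le (Nat.cast_nonneg _)

lemma DZ.mono {K : Type} [Field K] [NumberField K] {E E' : Set (𝓞 K)} (h : DZ E')
    (hE : E ⊆ E') : DZ E := by
  intro ε hε
  obtain ⟨I, hI, h1⟩ := h ε hε
  have hfI : Finite (𝓞 K ⧸ I) := Ideal.finiteQuotientOfFreeOfNeBot _ hI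
  refine ⟨I, hI, le_trans ?_ h1⟩
  exact_mod_cast Set.ncard_le_ncard (Set.image_mono hE) (Set.toFinite _)

lemma DZ.union {K : Type} [Field K] [NumberField K] {E E' : Set (𝓞 K)} (h : DZ E)
    (h' : DZ E') : DZ (E ∪ E') := by
  intro ε hε
  obtain ⟨I, hI, h1⟩ := h (ε / 2) (by positivity)
  obtain ⟨J, hJ, h2⟩ := h' (ε / 2) (by positivity)
  refine ⟨I * J, mul_ne_zero hI hJ, ?_⟩
  have hIJ : I * J ≠ ⊥ := mul_ne_zero hI hJ
  have h3 := card_mono (I * J) I Ideal.mul_le_left hIJ E _ h1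
  have h4 := card_mono (I * J) J Ideal.mul_le_right hIJ E' _ h2
  rw [Set.image_union]
  have h5 := Set.ncard_union_le ((Ideal.Quotient.mk (I * J)) '' E) ((Ideal.Quotient.mk (I * J)) '' E')
  have h6 : (Set.ncard ((Ideal.Quotient.mk (I * J)) '' E ∪ (Ideal.Quotient.mk (I * J)) '' E') : ℝ) ≤
      Set.ncard ((Ideal.Quotient.mk (I * J)) '' E) + Set.ncard ((Ideal.Quotient.mk (I * J)) '' E') := by
    exact_mod_cast h5
  linarith

lemma DZ.sUnion {K : Type} [Field K] [NumberField K] {S : Set (Set (𝓞 K))} (hS : S.Finite)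
    (h : ∀ E ∈ S, DZ E) : DZ (⋃₀ S) := by
  induction S, hS using Set.Finite.induction_on with
  | empty => rw [Set.sUnion_empty]; exact DZ.empty
  | insert _ _ ih =>
    rw [Set.sUnion_insert]
    exact (h _ (Set.mem_insert _ _)).union (ih fun E hE => h E (Set.mem_insert_of_mem _ hE))

section places

variable {K F : Type} [Field K] [NumberField K] [Field F] [NumberField F] [Algebra K F]

/-- a place with good ramification index and residue degree -/
lemma exists_place' (v : HeightOneSpectrum (𝓞 K)) (ℓ : ℕ) (S : Set ℕ)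
    (h : Module.finrank K F ∉ AddSubmonoid.closure (insert ℓ S)) :
    ∃ w : HeightOneSpectrum (𝓞 F), ∃ _ : w.asIdeal.LiesOver v.asIdeal,
      ¬ ℓ ∣ ramificationIdx' v.asIdeal w.asIdeal ∧ inertiaDeg' v.asIdeal w.asIdeal ∉ S ∧
      Ideal.absNorm w.asIdeal = Ideal.absNorm v.asIdeal ^ inertiaDeg' v.asIdeal w.asIdeal := by
  classical
  have hmax : v.asIdeal.IsMaximal := v.isMaximal
  have hsum := Ideal.sum_ramification_inertia (R := 𝓞 K) (𝓞 F) K F (p := v.asIdeal) v.ne_bot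
  obtain ⟨P, hP, hPℓ, hPS⟩ : ∃ P ∈ IsDedekindDomain.primesOverFinset v.asIdeal (𝓞 F),
      ¬ ℓ ∣ ramificationIdx' v.asIdeal P ∧ inertiaDeg' v.asIdeal P ∉ S := by
    by_contra hcon
    push Not at hcon
    apply h
    rw [← hsum]
    refine sum_mem fun P hP => ?_
    by_cases h1 : ℓ ∣ ramificationIdx' v.asIdeal P
    · obtain ⟨e, he⟩ := h1
      rw [he, mul_assoc, mul_comm, ← smul_eq_mul]
      exact AddSubmonoid.nsmul_mem _ (AddSubmonoid.subset_closure (Set.mem_insert _ _)) _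
    · rw [← smul_eq_mul]
      exact AddSubmonoid.nsmul_mem _ (AddSubmonoid.subset_closure
        (Set.mem_insert_of_mem _ (hcon P hP h1))) _
  have hP2 := (IsDedekindDomain.mem_primesOverFinset_iff v.ne_bot (𝓞 F)).1 hP
  obtain ⟨hPp, hPo⟩ := hP2
  have hP0 : P ≠ ⊥ := by
    intro h
    have h3 := Ideal.over_def P v.asIdeal
    apply v.ne_bot
    rw [h3, h]
    rw [Ideal.under_def, Ideal.comap_bot_of_injective _ (FaithfulSMul.algebraMap_injective (𝓞 K) (𝓞 F))]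
  exact ⟨⟨P, hPp, hP0⟩, hPo, hPℓ, hPS,
    absNorm_eq_pow_inertiaDeg'_of_liesOver P v.asIdeal v.isPrime v.ne_bot⟩

/-- the condition on the extension `F` of `K` for a set of residue degrees which are not allowed -/
def Cond (K F : Type) [Field K] [Field F] [Algebra K F] (ℓ : ℕ) (S : Set ℕ) : Prop :=
  Module.finrank K F ∉ AddSubmonoid.closure (insert ℓ S) ∨
    (IsGalois K F ∧ ¬ ℓ ∣ Module.finrank K F ∧ Module.finrank K F ∉ S)

lemma exists_place2 (v : HeightOneSpectrum (𝓞 K)) (ℓ : ℕ) (S : Set ℕ)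
    (hS : ∀ c ∈ S, ∀ k, c * k ∈ S) (h : Cond K F ℓ S) :
    ∃ w : HeightOneSpectrum (𝓞 F), ∃ _ : w.asIdeal.LiesOver v.asIdeal,
      ¬ ℓ ∣ ramificationIdx' v.asIdeal w.asIdeal ∧ inertiaDeg' v.asIdeal w.asIdeal ∉ S ∧
      Ideal.absNorm w.asIdeal = Ideal.absNorm v.asIdeal ^ inertiaDeg' v.asIdeal w.asIdeal := by
  rcases h with h | ⟨h1, h2, h3⟩
  · exact exists_place' v ℓ S h
  · obtain ⟨w, hw, hwℓ, -, hwn, hwG⟩ := exists_place (F := F) v ℓ h2
    refine ⟨w, hw, fun h => hwℓ (h.mul_right _), fun h => h3 ?_, hwn⟩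
    obtain ⟨k, hk⟩ := hwG h1
    rw [hk]
    exact hS _ h k

end places

/-- the exponents of the powers of `σ` which fix a root -/
def fixExp {K : Type} [Field K] (f : K[X]) (σ : AlgebraicClosure K ≃ₐ[K] AlgebraicClosure K) :
    Set ℕ :=
  {c | ∃ θ : AlgebraicClosure K, aeval θ f = 0 ∧ (σ ^ c) θ = θ}

lemma fixExp_mul {K : Type} [Field K] (f : K[X])
    (σ : AlgebraicClosure K ≃ₐ[K] AlgebraicClosure K) (c : ℕ) (hc : c ∈ fixExp f σ) (k : ℕ) :
    c * k ∈ fixExp f σ := by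
  obtain ⟨θ, hθ, h⟩ := hc
  refine ⟨θ, hθ, ?_⟩
  rw [pow_mul]
  induction k with
  | zero => simp
  | succ k ih => rw [pow_succ, AlgEquiv.mul_apply, h, ih]

/-- the exceptional elements for a set of residue degrees -/
def Exc {K : Type} [Field K] [NumberField K] (f : K[X]) (S : Set ℕ) : Set (𝓞 K) :=
  {a : 𝓞 K | ¬ ∀ (F : Type) [Field F] [NumberField F] [Algebra K F] (ℓ : ℕ), ℓ.Prime →
    ℓ ∣ f.natDegree → Cond K F ℓ S →
      FineP ℓ (algebraMap K F (algebraMap (𝓞 K) K a)) (f.map (algebraMap K F))}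

theorem density (hFUN : S_FUN) {K : Type} [Field K] [NumberField K] (f : K[X])
    (hf : f.Separable) (h3 : 3 ≤ f.natDegree)
    (σ : AlgebraicClosure K ≃ₐ[K] AlgebraicClosure K) : DZ (Exc f (fixExp f σ)) := by
  intro ε hε
  obtain ⟨T, hT, hTε⟩ := exists_primes hFUN f hf h3 σ ε hε
  refine ⟨∏ v ∈ T, v.asIdeal ^ 2, ?_, ?_⟩
  · refine Finset.prod_ne_zero_iff.2 fun v _ => pow_ne_zero _ v.ne_bot
  · have h1 := Pool.Agent.W417.SecC.D2.partD2 K T (Exc f (fixExp f σ)) (by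
        intro a ha v hv hav
        by_contra hcon
        apply ha
        intro F _ _ _ ℓ hℓ hℓd hF
        obtain ⟨w, hw, hwe, hwf, hwn⟩ := exists_place2 v ℓ (fixExp f σ)
          (fun c hc k => fixExp_mul f σ c hc k) hF
        obtain ⟨h5, h6⟩ := val_lift v w a hav hcon
        have key := hT v hv F w _ hwn (fun θ hθ h => hwf ⟨θ, hθ, h⟩) ℓ hℓ hℓd _ _ hwe h5 h6
        have hcc : algebraMap (𝓞 F) F (algebraMap (𝓞 K) (𝓞 F) a) =
            algebraMap K F (algebraMap (𝓞 K) K a) := by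
          rw [← IsScalarTower.algebraMap_apply (𝓞 K) (𝓞 F) F,
            ← IsScalarTower.algebraMap_apply (𝓞 K) K F]
        rw [hcc] at key
        exact key)
    exact h1.trans (mul_le_mul_of_nonneg_right hTε.le (Nat.cast_nonneg _))

lemma finite_fixExp {K : Type} [Field K] (f : K[X]) (hf : f ≠ 0) :
    (Set.range (fixExp f)).Finite := by
  classical
  let R := {θ : AlgebraicClosure K // aeval θ f = 0}
  have hR : Finite R := by
    have h1 : {θ : AlgebraicClosure K | aeval θ f = 0}.Finite := by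
      have h0 : f.map (algebraMap K (AlgebraicClosure K)) ≠ 0 := by
        rwa [Ne, Polynomial.map_eq_zero]
      refine (Polynomial.finite_setOfPred_isRoot h0).subset ?_
      intro θ hθ
      have h2 : aeval θ f = 0 := hθ
      rw [aeval_def, ← eval_map] at h2
      exact h2
    exact h1
  have hroot : ∀ (σ : AlgebraicClosure K ≃ₐ[K] AlgebraicClosure K) (θ : AlgebraicClosure K),
      aeval θ f = 0 → aeval (σ θ) f = 0 := by
    intro σ θ hθ
    have h := aeval_algHom_apply σ θ f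
    rw [hθ, map_zero] at h
    exact h
  let ρ : (AlgebraicClosure K ≃ₐ[K] AlgebraicClosure K) → (R → R) :=
    fun σ θ => ⟨σ θ.1, hroot σ θ.1 θ.2⟩
  let Φ : (R → R) → Set ℕ := fun π => {c | ∃ θ : R, π^[c] θ = θ}
  have hΦ : ∀ σ, fixExp f σ = Φ (ρ σ) := by
    intro σ
    have hit : ∀ (c : ℕ) (θ : R), (((ρ σ)^[c] θ : R) : AlgebraicClosure K) = (σ ^ c) θ.1 := by
      intro c
      induction c with
      | zero => intro θ; simp
      | succ c ih =>
        intro θ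
        rw [Function.iterate_succ_apply, ih, pow_succ, AlgEquiv.mul_apply]
    ext c
    constructor
    · rintro ⟨θ, hθ, h⟩
      exact ⟨⟨θ, hθ⟩, Subtype.ext (by rw [hit]; exact h)⟩
    · rintro ⟨θ, h⟩
      refine ⟨θ.1, θ.2, ?_⟩
      rw [← hit, h]
  refine (Set.finite_range Φ).subset ?_
  rintro _ ⟨σ, rfl⟩
  exact ⟨ρ σ, (hΦ σ).symm⟩

theorem density_all (hFUN : S_FUN) {K : Type} [Field K] [NumberField K] (f : K[X])
    (hf : f.Separable) (h3 : 3 ≤ f.natDegree) :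
    DZ {a : 𝓞 K | ¬ ∀ (σ : AlgebraicClosure K ≃ₐ[K] AlgebraicClosure K) (F : Type) [Field F]
      [NumberField F] [Algebra K F] (ℓ : ℕ), ℓ.Prime → ℓ ∣ f.natDegree →
      Cond K F ℓ (fixExp f σ) →
      FineP ℓ (algebraMap K F (algebraMap (𝓞 K) K a)) (f.map (algebraMap K F))} := by
  have hfin : ((fun S => Exc f S) '' (Set.range (fixExp f))).Finite :=
    (finite_fixExp f hf.ne_zero).image _
  refine (DZ.sUnion hfin ?_).mono ?_
  · rintro _ ⟨_, ⟨σ, rfl⟩, rfl⟩
    exact density hFUN f hf h3 σ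
  · intro a ha
    by_contra hcon
    apply ha
    intro σ F _ _ _ ℓ hℓ hℓd hF
    by_contra hne
    apply hcon
    refine Set.mem_sUnion.2 ⟨Exc f (fixExp f σ), ⟨_, ⟨σ, rfl⟩, rfl⟩, ?_⟩
    intro hall
    exact hne (hall F ℓ hℓ hℓd hF)

end Pool.Agent.V8H70.UT
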