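import Mathlib

/-! Places of an extension of number fields with ramification index prime to `ℓ`. -/

set_option autoImplicit false

namespace Pool.Agent.V8H70.UT

open Polynomial NumberField IsDedekindDomain Ideal

variable {K F : Type} [Field K] [NumberField K] [Field F] [NumberField F] [Algebra K F]

/-- the valuation of an element of `K` of valuation one -/
lemma val_lift (v : HeightOneSpectrum (𝓞 K)) (w : HeightOneSpectrum (𝓞 F))
    [w.asIdeal.LiesOver v.asIdeal] (a : 𝓞 K) (ha : a ∈ v.asIdeal) (ha' : a ∉ v.asIdeal ^ 2) :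
    algebraMap (𝓞 K) (𝓞 F) a ∈ w.asIdeal ^ (ramificationIdx' v.asIdeal w.asIdeal) ∧
      algebraMap (𝓞 K) (𝓞 F) a ∉ w.asIdeal ^ (ramificationIdx' v.asIdeal w.asIdeal + 1) := by
  have hinj : Function.Injective (algebraMap (𝓞 K) (𝓞 F)) :=
    FaithfulSMul.algebraMap_injective (𝓞 K) (𝓞 F)
  have hv0 : v.asIdeal.map (algebraMap (𝓞 K) (𝓞 F)) ≠ ⊥ := by
    rw [Ne, Ideal.map_eq_bot_iff_of_injective hinj]
    exact v.ne_bot
  have hwp : Prime w.asIdeal := w.prime
  have hfin : FiniteMultiplicity w.asIdeal (v.asIdeal.map (algebraMap (𝓞 K) (𝓞 F))) :=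
    FiniteMultiplicity.of_prime_left hwp hv0
  have h1 : w.asIdeal ^ multiplicity w.asIdeal (v.asIdeal.map (algebraMap (𝓞 K) (𝓞 F))) ∣
      v.asIdeal.map (algebraMap (𝓞 K) (𝓞 F)) := pow_multiplicity_dvd _ _
  have h2 : ¬ w.asIdeal ^ (multiplicity w.asIdeal (v.asIdeal.map (algebraMap (𝓞 K) (𝓞 F))) + 1) ∣
      v.asIdeal.map (algebraMap (𝓞 K) (𝓞 F)) := hfin.not_pow_dvd_of_multiplicity_lt (Nat.lt_succ_self _)
  have he : ramificationIdx' v.asIdeal w.asIdeal =
      multiplicity w.asIdeal (v.asIdeal.map (algebraMap (𝓞 K) (𝓞 F))) :=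
    ramificationIdx'_spec (Ideal.dvd_iff_le.1 h1) (fun h => h2 (Ideal.dvd_iff_le.2 h))
  rw [he]
  set e := multiplicity w.asIdeal (v.asIdeal.map (algebraMap (𝓞 K) (𝓞 F)))
  -- the factorisation of `a`
  obtain ⟨J, hJ⟩ : v.asIdeal ∣ Ideal.span {a} := by
    rw [Ideal.dvd_span_singleton]
    exact ha
  have hJv : ¬ v.asIdeal ∣ J := by
    rintro ⟨J', rfl⟩
    apply ha'
    rw [← Ideal.dvd_span_singleton, hJ, sq, ← mul_assoc]
    exact Dvd.intro _ rfl
  have hmap : Ideal.span {algebraMap (𝓞 K) (𝓞 F) a} =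
      v.asIdeal.map (algebraMap (𝓞 K) (𝓞 F)) * J.map (algebraMap (𝓞 K) (𝓞 F)) := by
    rw [← Ideal.map_mul, ← hJ, Ideal.map_span, Set.image_singleton]
  have hJw : ¬ w.asIdeal ∣ J.map (algebraMap (𝓞 K) (𝓞 F)) := by
    intro h
    apply hJv
    rw [Ideal.dvd_iff_le] at h ⊢
    rw [Ideal.map_le_iff_le_comap] at h
    have h3 := Ideal.over_def w.asIdeal v.asIdeal
    rw [h3]
    exact h
  constructor
  · rw [← Ideal.dvd_span_singleton, hmap]
    exact Dvd.dvd.mul_right h1 _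
  · rw [← Ideal.dvd_span_singleton, hmap]
    intro h
    exact h2 (hwp.pow_dvd_of_dvd_mul_right _ hJw h)

/-- there is a place with ramification index and residue degree prime to `ℓ` -/
lemma exists_place (v : HeightOneSpectrum (𝓞 K)) (ℓ : ℕ) (hℓ : ¬ ℓ ∣ Module.finrank K F) :
    ∃ w : HeightOneSpectrum (𝓞 F), w.asIdeal.LiesOver v.asIdeal ∧
      ¬ ℓ ∣ ramificationIdx' v.asIdeal w.asIdeal * inertiaDeg' v.asIdeal w.asIdeal ∧
      inertiaDeg' v.asIdeal w.asIdeal ≤ Module.finrank K F ∧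
      Ideal.absNorm w.asIdeal = Ideal.absNorm v.asIdeal ^ inertiaDeg' v.asIdeal w.asIdeal ∧
      (IsGalois K F → inertiaDeg' v.asIdeal w.asIdeal ∣ Module.finrank K F) := by
  classical
  have hmax : v.asIdeal.IsMaximal := v.isMaximal
  have hsum := Ideal.sum_ramification_inertia (R := 𝓞 K) (𝓞 F) K F (p := v.asIdeal) v.ne_bot
  obtain ⟨P, hP, hPℓ⟩ : ∃ P ∈ IsDedekindDomain.primesOverFinset v.asIdeal (𝓞 F),
      ¬ ℓ ∣ ramificationIdx' v.asIdeal P * inertiaDeg' v.asIdeal P := by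
    by_contra hcon
    push Not at hcon
    apply hℓ
    rw [← hsum]
    exact Finset.dvd_sum hcon
  have hP2 := (IsDedekindDomain.mem_primesOverFinset_iff v.ne_bot (𝓞 F)).1 hP
  obtain ⟨hPp, hPo⟩ := hP2
  have hP0 : P ≠ ⊥ := by
    intro h
    have h3 := Ideal.over_def P v.asIdeal
    apply v.ne_bot
    rw [h3, h]
    rw [Ideal.under_def, Ideal.comap_bot_of_injective _ (FaithfulSMul.algebraMap_injective (𝓞 K) (𝓞 F))]
  refine ⟨⟨P, hPp, hP0⟩, hPo, hPℓ, ?_, ?_, ?_⟩
  · have h6 : ramificationIdx' v.asIdeal P * inertiaDeg' v.asIdeal P ≤ Module.finrank K F := by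
      rw [← hsum]
      exact Finset.single_le_sum (f := fun P => ramificationIdx' v.asIdeal P * inertiaDeg' v.asIdeal P)
        (fun _ _ => Nat.zero_le _) hP
    have h7 : 0 < ramificationIdx' v.asIdeal P := by
      rcases Nat.eq_zero_or_pos (ramificationIdx' v.asIdeal P) with h | h
      · exact absurd (by rw [h, zero_mul]; exact dvd_zero _) hPℓ
      · exact h
    exact (Nat.le_mul_of_pos_left _ h7).trans h6
  · exact absNorm_eq_pow_inertiaDeg'_of_liesOver P v.asIdeal v.isPrime v.ne_bot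
  · intro hG
    have hPm : P.IsMaximal := hPp.isMaximal hP0
    have hvp : v.asIdeal.IsPrime := v.isPrime
    have h4 := ncard_primesOver_mul_ramificationIdxIn_mul_inertiaDegIn v.asIdeal (𝓞 F) Gal(F/K)
    have h5 := inertiaDegIn_eq_inertiaDeg v.asIdeal P Gal(F/K)
    change inertiaDeg' v.asIdeal P ∣ _
    rw [inertiaDeg'_eq_inertiaDeg, ← h5, ← IsGalois.card_aut_eq_finrank, ← h4]
    exact Dvd.intro_left _ (mul_assoc _ _ _)

end Pool.Agent.V8H70.UT
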