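import Pool.Agent.V8H70.UT.Cheb
import Pool.Agent.V8H70.UT.Ext
import Pool.Agent.Y157.PS.SupN

/-! Superelliptic twists over all extension fields at once. -/

set_option autoImplicit false
set_option linter.all false

namespace Pool.Agent.V8H70.UT

open Polynomial NumberField IsDedekindDomain FF
open Pool.Agent.Y157.PS

/-- the property of the prime `v` with Frobenius `σ` proved in `primes` -/
def Lifts {K : Type} [Field K] [NumberField K] (g : (𝓞 K)[X])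
    (σ : AlgebraicClosure K ≃ₐ[K] AlgebraicClosure K) (v : HeightOneSpectrum (𝓞 K)) : Prop :=
  ∀ (κ : Type) [Field κ] [Finite κ] (ρ : 𝓞 K →+* κ), (∀ x ∈ v.asIdeal, ρ x = 0) →
    ∀ n : ℕ, (∀ x : κ, x ^ (Ideal.absNorm v.asIdeal) ^ n = x) →
    ∀ r : κ, g.eval₂ ρ r = 0 →
      ∃ θ : AlgebraicClosure K, aeval θ (g.map (algebraMap (𝓞 K) K)) = 0 ∧ (σ ^ n) θ = θ

theorem crit (hFUN : S_FUN) {K F : Type} [Field K] [NumberField K] [Field F] [NumberField F]
    [Algebra K F] (g : (𝓞 K)[X]) (σ : AlgebraicClosure K ≃ₐ[K] AlgebraicClosure K)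
    (v : HeightOneSpectrum (𝓞 K)) (hlc : g.leadingCoeff ∉ v.asIdeal)
    (hs : (g.map (Ideal.Quotient.mk v.asIdeal)).Separable) (hv : Lifts g σ v)
    (w : HeightOneSpectrum (𝓞 F)) [w.asIdeal.LiesOver v.asIdeal] (j : ℕ)
    (hj : Ideal.absNorm w.asIdeal = Ideal.absNorm v.asIdeal ^ j)
    (hσ : ∀ θ : AlgebraicClosure K, aeval θ (g.map (algebraMap (𝓞 K) K)) = 0 → (σ ^ j) θ ≠ θ)
    (ℓ : ℕ) (hℓ : ℓ.Prime) (hℓv : (ℓ : 𝓞 K) ∉ v.asIdeal) (hd : ℓ ∣ g.natDegree)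
    (h3 : 3 ≤ g.natDegree) (b : 𝓞 F) (r : ℕ) (hr : ¬ ℓ ∣ r) (hb : b ∈ w.asIdeal ^ r)
    (hb' : b ∉ w.asIdeal ^ (r + 1)) :
    FineP ℓ (algebraMap (𝓞 F) F b) ((g.map (algebraMap (𝓞 K) K)).map (algebraMap K F)) := by
  classical
  have hinj : Function.Injective (algebraMap (𝓞 K) (𝓞 F)) :=
    FaithfulSMul.algebraMap_injective (𝓞 K) (𝓞 F)
  have hmem : ∀ x : 𝓞 K, algebraMap (𝓞 K) (𝓞 F) x ∈ w.asIdeal ↔ x ∈ v.asIdeal := by
    intro x
    have h3 := Ideal.over_def w.asIdeal v.asIdeal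
    conv_rhs => rw [h3]
    rfl
  set gF : (𝓞 F)[X] := g.map (algebraMap (𝓞 K) (𝓞 F)) with hgF
  have hlcF : gF.leadingCoeff ∉ w.asIdeal := by
    rw [hgF, leadingCoeff_map_of_injective hinj, hmem]
    exact hlc
  have hdegF : gF.natDegree = g.natDegree := natDegree_map_eq_of_injective hinj g
  have hvle : v.asIdeal ≤ w.asIdeal.comap (algebraMap (𝓞 K) (𝓞 F)) := fun x hx => (hmem x).2 hx
  let q : (𝓞 K ⧸ v.asIdeal) →+* (𝓞 F ⧸ w.asIdeal) :=
    Ideal.quotientMap w.asIdeal (algebraMap (𝓞 K) (𝓞 F)) hvle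
  have hq : (Ideal.Quotient.mk w.asIdeal).comp (algebraMap (𝓞 K) (𝓞 F)) =
      q.comp (Ideal.Quotient.mk v.asIdeal) := by
    ext x
    simp [q]
  have hsF : (gF.map (Ideal.Quotient.mk w.asIdeal)).Separable := by
    rw [hgF, Polynomial.map_map, hq, ← Polynomial.map_map]
    exact hs.map
  have hwm : w.asIdeal.IsMaximal := w.isMaximal
  have hrootF : ∀ r : 𝓞 F ⧸ w.asIdeal, (gF.map (Ideal.Quotient.mk w.asIdeal)).eval r ≠ 0 := by
    intro r hr0
    let _ : Field (𝓞 F ⧸ w.asIdeal) := Ideal.Quotient.field w.asIdeal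
    have hfin : Finite (𝓞 F ⧸ w.asIdeal) := Ideal.finiteQuotientOfFreeOfNeBot _ w.ne_bot
    let _ : Fintype (𝓞 F ⧸ w.asIdeal) := Fintype.ofFinite _
    obtain ⟨θ, hθ, hθ'⟩ := hv (𝓞 F ⧸ w.asIdeal)
      ((Ideal.Quotient.mk w.asIdeal).comp (algebraMap (𝓞 K) (𝓞 F)))
      (fun x hx => Ideal.Quotient.eq_zero_iff_mem.2 ((hmem x).2 hx)) j (by
        intro x
        have h1 : Fintype.card (𝓞 F ⧸ w.asIdeal) = Ideal.absNorm v.asIdeal ^ j := by
          rw [← hj, ← Nat.card_eq_fintype_card, Ideal.absNorm_apply, Submodule.cardQuot_apply]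
        rw [← h1]
        exact FiniteField.pow_card x) r (by
        rw [hgF, Polynomial.map_map, eval_map] at hr0
        exact hr0)
    exact hσ θ hθ hθ'
  have hℓw : ((ℓ : ℕ) : 𝓞 F) ∉ w.asIdeal := by
    intro h
    apply hℓv
    rw [← hmem, map_natCast]
    exact h
  have hfact : Fact ℓ.Prime := ⟨hℓ⟩
  obtain ⟨A, _, _, _, _, hfin, hfr, hℓA, fA, hfK, hdegA, hlcA, hsA, hrA, ϖ, t, hϖ, ht, hbt⟩ :=
    num_loc w ℓ hℓw gF hlcF hsF hrootF b r hb hb'
  have key := fineP hFUN hℓA fA hlcA hsA (by rw [hdegA, hdegF]; exact hd)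
    (by rw [hdegA, hdegF]; exact h3) hrA ϖ hϖ (algebraMap (𝓞 F) F b) (r : ℤ) (by
      intro h
      exact hr (Int.natCast_dvd_natCast.1 h)) t ht hbt
  rw [hfK] at key
  have hmaps : gF.map (algebraMap (𝓞 F) F) =
      (g.map (algebraMap (𝓞 K) K)).map (algebraMap K F) := by
    rw [hgF, Polynomial.map_map, Polynomial.map_map, ← IsScalarTower.algebraMap_eq,
      ← IsScalarTower.algebraMap_eq]
  rw [hmaps] at key
  exact key

/-- many primes with the following property, for arbitrary polynomials over `K` -/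
theorem exists_primes (hFUN : S_FUN) {K : Type} [Field K] [NumberField K] (f : K[X])
    (hf : f.Separable) (h3 : 3 ≤ f.natDegree) (σ : AlgebraicClosure K ≃ₐ[K] AlgebraicClosure K)
    (ε : ℝ) (hε : 0 < ε) :
    ∃ T : Finset (HeightOneSpectrum (𝓞 K)),
      (∀ v ∈ T, ∀ (F : Type) [Field F] [NumberField F] [Algebra K F]
        (w : HeightOneSpectrum (𝓞 F)) [w.asIdeal.LiesOver v.asIdeal] (j : ℕ),
        Ideal.absNorm w.asIdeal = Ideal.absNorm v.asIdeal ^ j →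
        (∀ θ : AlgebraicClosure K, aeval θ f = 0 → (σ ^ j) θ ≠ θ) →
        ∀ ℓ : ℕ, ℓ.Prime → ℓ ∣ f.natDegree → ∀ (b : 𝓞 F) (r : ℕ), ¬ ℓ ∣ r →
          b ∈ w.asIdeal ^ r → b ∉ w.asIdeal ^ (r + 1) →
          FineP ℓ (algebraMap (𝓞 F) F b) (f.map (algebraMap K F))) ∧
      ∏ v ∈ T, (1 - (1 / (Ideal.absNorm v.asIdeal : ℝ) -
        1 / (Ideal.absNorm v.asIdeal : ℝ) ^ 2)) < ε := by
  classical
  obtain ⟨c, hc, hcf⟩ := IsLocalization.integerNormalization_spec (nonZeroDivisors (𝓞 K)) f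
  set g := IsLocalization.integerNormalization (nonZeroDivisors (𝓞 K)) f with hg
  have hc0 : c ≠ 0 := nonZeroDivisors.ne_zero hc
  have hinj : Function.Injective (algebraMap (𝓞 K) K) := IsFractionRing.injective (𝓞 K) K
  have hcK : algebraMap (𝓞 K) K c ≠ 0 := by
    rw [Ne, map_eq_zero_iff _ hinj]
    exact hc0
  have hgf : g.map (algebraMap (𝓞 K) K) = C (algebraMap (𝓞 K) K c) * f := by
    rw [hcf]
    ext i
    rw [coeff_smul, coeff_C_mul, Algebra.smul_def]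
  have hdeg : g.natDegree = f.natDegree := by
    rw [← natDegree_map_eq_of_injective hinj g, hgf, natDegree_C_mul hcK]
  have hgs : (g.map (algebraMap (𝓞 K) K)).Separable := by
    rw [hgf]
    exact Separable.unit_mul (isUnit_C.2 hcK.isUnit) hf
  have hgroot : ∀ θ : AlgebraicClosure K, aeval θ (g.map (algebraMap (𝓞 K) K)) = 0 →
      aeval θ f = 0 := by
    intro θ hθ
    rw [hgf, map_mul, aeval_C] at hθ
    exact (mul_eq_zero.1 hθ).resolve_left ((_root_.map_ne_zero _).2 hcK)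
  have hdc : c * (f.natDegree : 𝓞 K) ≠ 0 := by
    refine mul_ne_zero hc0 ?_
    rw [Nat.cast_ne_zero]
    omega
  obtain ⟨T, hT, hTε⟩ := primes K g (c * (f.natDegree : 𝓞 K)) hdc hgs σ ε hε
  refine ⟨T, ?_, hTε⟩
  intro v hv F _ _ _ w _ j hj hσ ℓ hℓ hℓd b r hr hb hb'
  obtain ⟨hcv', hlcv, hsv, hrv⟩ := hT v hv
  have hvp : v.asIdeal.IsPrime := v.isPrime
  have hvm : v.asIdeal.IsMaximal := v.isMaximal
  have hwm : w.asIdeal.IsMaximal := w.isMaximal
  have hcv : c ∉ v.asIdeal := fun h => hcv' (Ideal.mul_mem_right _ _ h)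
  have hcw : algebraMap (𝓞 K) (𝓞 F) c ∉ w.asIdeal := by
    intro h
    apply hcv
    have h3 := Ideal.over_def w.asIdeal v.asIdeal
    rw [h3]
    exact h
  have hℓv : (ℓ : 𝓞 K) ∉ v.asIdeal := by
    intro h
    apply hcv'
    obtain ⟨n, hn⟩ := hℓd
    rw [hn]
    push_cast
    exact Ideal.mul_mem_left _ _ (Ideal.mul_mem_right _ _ h)
  have hcb : algebraMap (𝓞 K) (𝓞 F) c * b ∈ w.asIdeal ^ r := Ideal.mul_mem_left _ _ hb
  have hcb' : algebraMap (𝓞 K) (𝓞 F) c * b ∉ w.asIdeal ^ (r + 1) := by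
    intro h
    rcases Ideal.IsMaximal.mul_mem_pow _ h with h1 | h1
    · exact hcw h1
    · exact hb' h1
  have key := crit hFUN g σ v hlcv hsv hrv w j hj (fun θ hθ => hσ θ (hgroot θ hθ)) ℓ hℓ hℓv
    (by rw [hdeg]; exact hℓd) (by rw [hdeg]; exact h3) _ r hr hcb hcb'
  rw [hgf, Polynomial.map_mul, map_C, map_mul] at key
  have hcc : algebraMap (𝓞 F) F (algebraMap (𝓞 K) (𝓞 F) c) =
      algebraMap K F (algebraMap (𝓞 K) K c) := by
    rw [← IsScalarTower.algebraMap_apply (𝓞 K) (𝓞 F) F, ← IsScalarTower.algebraMap_apply (𝓞 K) K F]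
  rw [hcc] at key
  exact key.scale ((_root_.map_ne_zero _).2 hcK)

end Pool.Agent.V8H70.UT
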